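import Pool.Agent.W_MP_3ca6e9_h18.Main

/-!
# The convex compact set is not homeomorphic to a convex weakly compact set: end of the proof
-/

namespace Pool.Agent.W_MP_3ca6e9_h18

open Set Filter Topology Pool.Agent.W_MP_3ca6e9_an

variable {Y : Type*} [NormedAddCommGroup Y] [NormedSpace ℝ Y] {C : Set (WeakSpace ℝ Y)}

/-- The unit vectors. -/
noncomputable def Ei {κ : Type} : II κ → KK κ
  | (Sum.inl τ, ξ) => E1 τ ξ
  | (Sum.inr u, η) => E2 u η

open Classical in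
theorem no_homeo (hC : Convex ℝ C) (h : KK KIdx ≃ₜ C) : False := by
  have hφ : ∀ i : II KIdx, ∃ φ : StrongDual ℝ Y, ‖φ‖ ≤ 1 ∧
      φ (uu h (Ei i) - uu h Z0) = ‖uu h (Ei i) - uu h Z0‖ := fun i => exists_dual_vector'' ℝ _
  choose φ hφ1 hφ2 using hφ
  obtain ⟨N, hNc, hNm, hNconv, hNφ⟩ := exists_family KK_isCompact hC h φ
  have hnn : ∀ (τ : ℕ → ℕ) (ξ : KIdx), ∃ n : ℕ, 1 / ((n : ℝ) + 1) < ‖uu h (E1 τ ξ) - uu h Z0‖ := by
    intro τ ξ
    apply exists_nat_one_div_lt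
    rw [norm_pos_iff, sub_ne_zero]
    intro heq
    have h1 := uu_injective h heq
    have h2 := E1_self τ ξ
    rw [h1, Z0_apply] at h2
    exact zero_ne_one h2
  choose nn hnn using hnn
  obtain ⟨n₀, k, τs, g, hmono, hn₀, hfree⟩ := exists_choice nn N hNc
  have hτinj : Function.Injective τs := by
    intro a b hab
    exact hmono.injective (congrFun hab k)
  set m : ℕ := 2 ^ k with hm
  have hmpos : 0 < m := by positivity
  have hmr : (1 : ℝ) / m = (1 / 2) ^ k := by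
    rw [hm]
    push_cast
    rw [one_div, one_div, inv_pow]
  have hs0 : (0 : ℝ) ≤ 1 / m := by positivity
  have hs1 : (1 : ℝ) / m ≤ 1 := by
    rw [hmr]
    exact pow_le_one₀ (by norm_num) (by norm_num)
  -- the multiples
  have hzex : ∀ i (j : Fin m), ∃ z : KK KIdx, uu h z =
      (1 / (m : ℝ)) • uu h (E1 (τs i) (g i j)) + (1 - 1 / (m : ℝ)) • uu h Z0 := by
    intro i j
    exact uu_convex hC h ⟨E1 (τs i) (g i j), rfl⟩ ⟨Z0, rfl⟩ hs0 (sub_nonneg.mpr hs1) (by ring)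
  choose zz hzz using hzex
  have hsmall : ∀ i, ∃ j : Fin m, ∀ F : Finset KIdx,
      ∑ ζ ∈ F, (if ((Sum.inl (τs i), ζ) : II KIdx) ∈ N (Sum.inl (τs i), g i j) then
      (zz i j).1 (Sum.inl (τs i), ζ) else 0) ≤ 1 / (m : ℝ) := by
    intro i
    refine small_copy hC h hNconv m hmpos (fun j => g i j) (fun j l hjl => ?_) (zz i) (hzz i)
    refine (hfree i j i l ?_).2.1 _
    intro heq
    rw [Prod.mk.injEq] at heq
    exact hjl (Fin.ext heq.2)
  choose jj hjj using hsmall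
  let ξ : ℕ → KIdx := fun i => g i (jj i)
  let z : ℕ → KK KIdx := fun i => zz i (jj i)
  have hz : ∀ i, uu h (z i) =
      (1 / (m : ℝ)) • uu h (E1 (τs i) (ξ i)) + (1 - 1 / (m : ℝ)) • uu h Z0 := fun i => hzz i (jj i)
  have hblock : ∀ i, ∀ β ∈ N (Sum.inl (τs i), ξ i), (∀ ξ', β ≠ (Sum.inl (τs i), ξ')) →
      (z i).1 β = 0 := by
    intro i β hβ hβ'
    have hne : (i, (jj i : ℕ) + 1) ≠ (i, (jj i : ℕ)) := by
      intro heq
      rw [Prod.mk.injEq] at heq
      omega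
    exact blocked hC h hNm hNconv (η := g i (jj i + 1)) (hfree i (jj i + 1) i (jj i) hne).2.1
      (hfree i (jj i) i (jj i + 1) hne.symm).2.2 hs0 hs1 (hz i) β hβ hβ'
  have hvan : ∀ i l, i ≠ l → ∀ β ∈ N (Sum.inl (τs l), ξ l), (z i).1 β = 0 := by
    intro i l hil β hβ
    refine vanish h (hNconv _) ?_ hs0 hs1 (hz i) β hβ
    refine (hfree i (jj i) l (jj l) ?_).2.1 _
    intro heq
    rw [Prod.mk.injEq] at heq
    exact hil heq.1
  let W : ℕ → KIdx → ℝ := fun i ζ =>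
    if ((Sum.inl (τs i), ζ) : II KIdx) ∈ N (Sum.inl (τs i), ξ i) then
      (z i).1 (Sum.inl (τs i), ζ) else 0
  have hWdef : ∀ i ζ, W i ζ = if ((Sum.inl (τs i), ζ) : II KIdx) ∈ N (Sum.inl (τs i), ξ i) then
      (z i).1 (Sum.inl (τs i), ζ) else 0 := fun i ζ => rfl
  have hW0 : ∀ i ζ, 0 ≤ W i ζ := by
    intro i ζ
    rw [hWdef]
    split_ifs
    · exact (z i).2.nonneg _
    · exact le_rfl
  have hW1 : ∀ i (F : Finset KIdx), ∑ ζ ∈ F, W i ζ ≤ (1 / 2) ^ k := by
    intro i F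
    rw [← hmr]
    exact hjj i F
  let WJ : Set ℕ → ℕ → KIdx → ℝ := fun J i ζ => if i ∈ J then W i ζ else 0
  have hWJ : ∀ (J : Set ℕ) i ζ, WJ J i ζ = if i ∈ J then W i ζ else 0 := fun _ _ _ => rfl
  have hXgood : ∀ J : Set ℕ, IsGood (rows τs (WJ J)) := by
    intro J
    refine rows_good hmono (fun i ζ => ?_) (fun i F => ?_)
    · show 0 ≤ if i ∈ J then W i ζ else 0
      split_ifs
      · exact hW0 i ζ
      · exact le_rfl
    · show ∑ ζ ∈ F, (if i ∈ J then W i ζ else 0) ≤ _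
      split_ifs
      · exact hW1 i F
      · rw [Finset.sum_const_zero]; positivity
  have hXval : ∀ (J : Set ℕ) (i : ℕ), ∀ β ∈ N (Sum.inl (τs i), ξ i),
      rows τs (WJ J) β = if i ∈ J then (z i).1 β else 0 := by
    intro J i β hβ
    obtain ⟨(τ | u), ζ⟩ := β
    · by_cases hτ : ∃ l, τs l = τ
      · obtain ⟨l, rfl⟩ := hτ
        rw [rows_inl hτinj]
        show (if l ∈ J then W l ζ else 0) = _
        by_cases hl : l = i
        · subst hl
          rw [hWdef, if_pos hβ]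
        · have h1 : W l ζ = 0 := by
            rw [hWdef]
            split_ifs
            · exact hvan l i hl _ hβ
            · rfl
          have h2 : (z i).1 (Sum.inl (τs l), ζ) = 0 := by
            refine hblock i _ hβ fun ξ' heq => ?_
            rw [Prod.mk.injEq] at heq
            exact hl (hτinj (Sum.inl_injective heq.1))
          rw [h1, h2, ite_self, ite_self]
      · rw [rows_inl' _ τ ζ fun n hn => hτ ⟨n, hn⟩]
        have h2 : (z i).1 (Sum.inl τ, ζ) = 0 := by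
          refine hblock i _ hβ fun ξ' heq => ?_
          rw [Prod.mk.injEq] at heq
          exact hτ ⟨i, (Sum.inl_injective heq.1).symm⟩
        rw [h2, ite_self]
    · have h2 : (z i).1 (Sum.inr u, ζ) = 0 := by
        refine hblock i _ hβ fun ξ' heq => ?_
        rw [Prod.mk.injEq] at heq
        exact Sum.inr_ne_inl heq.1
      rw [h2, ite_self]
      rfl
  let X : Set ℕ → KK KIdx := fun J => ⟨rows τs (WJ J), hXgood J⟩
  have htend : Tendsto (fun n : ℕ => X {i | i ≤ n}) atTop (𝓝 (X univ)) := by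
    rw [tendsto_subtype_rng, tendsto_pi_nhds]
    rintro ⟨(τ | u), ζ⟩
    · by_cases hτ : ∃ l, τs l = τ
      · obtain ⟨l, rfl⟩ := hτ
        refine tendsto_const_nhds.congr' ?_
        filter_upwards [eventually_ge_atTop l] with n hn
        show rows τs (WJ univ) (Sum.inl (τs l), ζ) = rows τs (WJ {i | i ≤ n}) (Sum.inl (τs l), ζ)
        rw [rows_inl hτinj, rows_inl hτinj]
        rw [hWJ, hWJ, if_pos (mem_univ _), if_pos]
        exact hn
      · refine tendsto_const_nhds.congr' ?_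
        filter_upwards with n
        show rows τs (WJ univ) (Sum.inl τ, ζ) = rows τs (WJ {i | i ≤ n}) (Sum.inl τ, ζ)
        rw [rows_inl' _ τ ζ fun n hn => hτ ⟨n, hn⟩, rows_inl' _ τ ζ fun n hn => hτ ⟨n, hn⟩]
    · exact tendsto_const_nhds
  have hcl := uu_mem_closure h _ _ htend
  have hεpos : (0 : ℝ) < 1 / m * (1 / ((n₀ : ℝ) + 1)) := by
    have : (0 : ℝ) < m := Nat.cast_pos.mpr hmpos
    positivity
  obtain ⟨b, hb, hbd⟩ := Metric.mem_closure_iff.mp hcl _ hεpos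
  have htail : ∀ b ∈ convexHull ℝ (range fun n : ℕ => uu h (X {i | i ≤ n})),
      ∃ M : ℕ, ∀ i > M, φ (Sum.inl (τs i), ξ i) b = φ (Sum.inl (τs i), ξ i) (uu h Z0) := by
    intro b hb
    refine convexHull_min (t := {b | ∃ M : ℕ, ∀ i > M, φ (Sum.inl (τs i), ξ i) b =
      φ (Sum.inl (τs i), ξ i) (uu h Z0)}) ?_ ?_ hb
    · rintro _ ⟨n, rfl⟩
      refine ⟨n, fun i hi => ?_⟩
      refine hNφ (Sum.inl (τs i), ξ i) _ _ fun β hβ => ?_
      rw [Z0_apply]
      show rows τs (WJ {i | i ≤ n}) β = 0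
      rw [hXval _ i β hβ, if_neg]
      exact not_le.mpr hi
    · rintro x ⟨M, hM⟩ y ⟨M', hM'⟩ a c ha hc hac
      refine ⟨max M M', fun i hi => ?_⟩
      rw [map_add, map_smul, map_smul, hM i (lt_of_le_of_lt (le_max_left _ _) hi),
        hM' i (lt_of_le_of_lt (le_max_right _ _) hi), ← add_smul, hac, one_smul]
  obtain ⟨M, hM⟩ := htail b hb
  have h1 := hM (M + 1) (Nat.lt_succ_self M)
  set i := M + 1
  have h2 : φ (Sum.inl (τs i), ξ i) (uu h (X univ)) =
      φ (Sum.inl (τs i), ξ i) (uu h (z i)) := by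
    refine hNφ (Sum.inl (τs i), ξ i) _ _ fun β hβ => ?_
    show rows τs (WJ univ) β = _
    rw [hXval _ i β hβ, if_pos (mem_univ _)]
  have h3 : φ (Sum.inl (τs i), ξ i) (uu h (X univ) - b) =
      1 / m * ‖uu h (E1 (τs i) (ξ i)) - uu h Z0‖ := by
    rw [map_sub, h2, h1, hz i, ← map_sub]
    have h4 : (1 / (m : ℝ)) • uu h (E1 (τs i) (ξ i)) + (1 - 1 / (m : ℝ)) • uu h Z0 - uu h Z0 =
        (1 / (m : ℝ)) • (uu h (E1 (τs i) (ξ i)) - uu h Z0) := by
      rw [sub_smul, one_smul, smul_sub]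
      abel
    rw [h4, map_smul, smul_eq_mul]
    have h5 := hφ2 (Sum.inl (τs i), ξ i)
    have hEi : (Ei (Sum.inl (τs i), ξ i) : KK KIdx) = E1 (τs i) (ξ i) := rfl
    rw [hEi] at h5
    rw [h5]
  have h6 : φ (Sum.inl (τs i), ξ i) (uu h (X univ) - b) ≤ ‖uu h (X univ) - b‖ := by
    calc φ (Sum.inl (τs i), ξ i) (uu h (X univ) - b)
        ≤ ‖φ (Sum.inl (τs i), ξ i) (uu h (X univ) - b)‖ := le_abs_self _
      _ ≤ ‖φ (Sum.inl (τs i), ξ i)‖ * ‖uu h (X univ) - b‖ := ContinuousLinearMap.le_opNorm _ _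
      _ ≤ 1 * ‖uu h (X univ) - b‖ :=
        mul_le_mul_of_nonneg_right (hφ1 _) (norm_nonneg _)
      _ = _ := one_mul _
  rw [dist_eq_norm] at hbd
  have h7 : 1 / ((n₀ : ℝ) + 1) < ‖uu h (E1 (τs i) (ξ i)) - uu h Z0‖ := by
    have := hnn (τs i) (ξ i)
    rwa [hn₀ i (jj i)] at this
  have h8 : (0 : ℝ) < 1 / m := by
    have : (0 : ℝ) < m := Nat.cast_pos.mpr hmpos
    positivity
  have h9 := mul_lt_mul_of_pos_left h7 h8
  linarith

end Pool.Agent.W_MP_3ca6e9_h18
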