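import Pool.Agent.W_MP_3ca6e9_h18.FreeSet

/-!
# Choice of the types and of the free set
-/

namespace Pool.Agent.W_MP_3ca6e9_h18

open Set Cardinal

theorem exists_unbounded (n : (ℕ → ℕ) → ℕ) : ∃ n₀ k, ∀ B, ∃ τ, n τ = n₀ ∧ B ≤ τ k := by
  by_contra hcon
  push Not at hcon
  choose b hb using hcon
  exact lt_irrefl _ (hb (n fun k => b k k) (n fun k => b k k) (fun k => b k k) rfl)

theorem exists_strict (n : (ℕ → ℕ) → ℕ) : ∃ n₀ k, ∃ τs : ℕ → ℕ → ℕ, (∀ i, n (τs i) = n₀) ∧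
    StrictMono fun i => τs i k := by
  obtain ⟨n₀, k, h⟩ := exists_unbounded n
  choose g hg1 hg2 using h
  let τs : ℕ → ℕ → ℕ := fun i => Nat.rec (g 0) (fun _ τ => g (τ k + 1)) i
  have hs : ∀ i, τs (i + 1) = g (τs i k + 1) := fun i => rfl
  refine ⟨n₀, k, τs, ?_, ?_⟩
  · intro i
    cases i with
    | zero => exact hg1 0
    | succ i => rw [hs]; exact hg1 _
  · refine strictMono_nat_of_lt_succ fun i => ?_
    show τs i k < τs (i + 1) k
    rw [hs]
    have := hg2 (τs i k + 1)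
    omega

theorem uncountable_fun : ℵ₁ ≤ #((ℕ → ℕ) → ℕ) := by
  classical
  rw [aleph_one_le_iff]
  have h1 : ℵ₀ < #(ℕ → ℕ) := by
    rw [← power_def, mk_nat, aleph0_power_aleph0]
    exact aleph0_lt_continuum
  refine h1.trans_le ?_
  refine mk_le_of_injective (f := fun (a : ℕ → ℕ) (b : ℕ → ℕ) => if b = a then 1 else 0) ?_
  intro a b hab
  have := congrFun hab a
  simp only [if_true] at this
  by_contra hne
  rw [if_neg hne] at this
  exact one_ne_zero this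

/-- The index set of the copies. -/
abbrev KIdx := Set ((ℕ → ℕ) → ℕ)

theorem mk_KIdx : #((ℕ → ℕ) → ℕ) < #KIdx := by
  rw [mk_set]
  exact cantor _

/-- The combinatorial input: types `τs i` and indices `g i j`, with all the freeness. -/
theorem exists_choice (nn : (ℕ → ℕ) → KIdx → ℕ)
    (N : ((ℕ → ℕ) ⊕ (ℕ × ℕ)) × KIdx → Set (((ℕ → ℕ) ⊕ (ℕ × ℕ)) × KIdx))
    (hN : ∀ i, (N i).Countable) :
    ∃ (n₀ k : ℕ) (τs : ℕ → ℕ → ℕ) (g : ℕ → ℕ → KIdx), (StrictMono fun i => τs i k) ∧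
      (∀ i j, nn (τs i) (g i j) = n₀) ∧
      ∀ i j i' j', (i, j) ≠ (i', j') → g i j ≠ g i' j' ∧
        (∀ v', (v', g i j) ∉ N (Sum.inl (τs i'), g i' j')) ∧
        ∀ u v', (v', g i j) ∉ N (Sum.inr u, g i' j') := by
  obtain ⟨n, hn⟩ := infinite_pigeonhole_card_lt (fun (ξ : KIdx) (τ : ℕ → ℕ) => nn τ ξ) mk_KIdx
    (aleph0_lt_aleph_one.le.trans (uncountable_fun.trans mk_KIdx.le))
  have hn1 : ℵ₁ < #((fun (ξ : KIdx) (τ : ℕ → ℕ) => nn τ ξ) ⁻¹' {n}) :=
    uncountable_fun.trans_lt hn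
  obtain ⟨n₀, k, τs, hτ, hmono⟩ := exists_strict n
  let V : Set ((ℕ → ℕ) ⊕ (ℕ × ℕ)) := range (fun i => Sum.inl (τs i)) ∪ range Sum.inr
  have hV : V.Countable := (countable_range _).union (countable_range _)
  obtain ⟨F, hFinf, hF⟩ := exists_infinite_free hn1
    (N := fun ξ => {ξ' | ∃ v ∈ V, ∃ v', (v', ξ'.1) ∈ N (v, ξ.1)}) (by
      intro ξ
      have h1 : (⋃ v ∈ V, Prod.snd '' N (v, ξ.1)).Countable :=
        hV.biUnion fun v _ => (hN _).image _
      refine (h1.preimage Subtype.val_injective).mono ?_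
      rintro ξ' ⟨v, hv, v', hv'⟩
      simp only [mem_preimage, mem_iUnion, mem_image, exists_prop]
      exact ⟨v, hv, _, hv', rfl⟩)
  let e := hFinf.natEmbedding F
  have he : ∀ m n : ℕ, m ≠ n → ((e m).1 : _) ≠ (e n).1 := by
    intro m n hmn h
    exact hmn (e.injective (Subtype.ext h))
  refine ⟨n₀, k, τs, fun i j => (e (Nat.pair i j)).1.1, hmono, ?_, ?_⟩
  · intro i j
    have h1 : (fun (τ : ℕ → ℕ) => nn τ (e (Nat.pair i j)).1.1) = n := (e (Nat.pair i j)).1.2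
    have h2 := congrFun h1 (τs i)
    rw [hτ i] at h2
    exact h2
  · intro i j i' j' hne
    have hne' : Nat.pair i j ≠ Nat.pair i' j' := by
      intro h
      rw [Nat.pair_eq_pair] at h
      exact hne (Prod.ext h.1 h.2)
    have hfree := hF _ (e (Nat.pair i j)).2 _ (e (Nat.pair i' j')).2 (he _ _ hne')
    refine ⟨fun h => he _ _ hne' (Subtype.ext h), fun v' hv' => ?_, fun u v' hv' => ?_⟩
    · exact hfree ⟨_, Or.inl ⟨i', rfl⟩, v', hv'⟩
    · exact hfree ⟨_, Or.inr ⟨u, rfl⟩, v', hv'⟩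

end Pool.Agent.W_MP_3ca6e9_h18
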