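import Mathlib

/-!
# Continuous functions depend on countably many coordinates
-/

namespace Pool.Agent.W_MP_3ca6e9_h18

open Set

/-- On a compact space with a separating family `c` of continuous maps, every continuous real
function only depends on countably many members of `c`. -/
theorem countable_dep {P : Type*} [TopologicalSpace P] [CompactSpace P] {ι : Type*}
    {Z : ι → Type*} [∀ i, TopologicalSpace (Z i)] [∀ i, T2Space (Z i)] (c : ∀ i, P → Z i)
    (hc : ∀ i, Continuous (c i)) (hsep : ∀ p q, (∀ i, c i p = c i q) → p = q) (f : P → ℝ)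
    (hf : Continuous f) :
    ∃ S : Set ι, S.Countable ∧ ∀ p q, (∀ i ∈ S, c i p = c i q) → f p = f q := by
  classical
  have key : ∀ n : ℕ, ∃ F : Finset ι, ∀ p q, (∀ i ∈ F, c i p = c i q) →
      |f p - f q| < 1 / ((n : ℝ) + 1) := by
    intro n
    have hA : IsCompact {pq : P × P | 1 / ((n : ℝ) + 1) ≤ |f pq.1 - f pq.2|} := by
      apply IsClosed.isCompact
      exact isClosed_le continuous_const
        (((hf.comp continuous_fst).sub (hf.comp continuous_snd)).abs)
    obtain ⟨F, hF⟩ := hA.elim_finite_subfamily_closed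
      (fun i : ι => {pq : P × P | c i pq.1 = c i pq.2})
      (fun i => isClosed_eq ((hc i).comp continuous_fst) ((hc i).comp continuous_snd)) (by
        rw [eq_empty_iff_forall_notMem]
        rintro ⟨p, q⟩ ⟨h1, h2⟩
        rw [mem_iInter] at h2
        have h3 : p = q := hsep p q h2
        simp only [mem_ofPred_eq, h3, sub_self, abs_zero] at h1
        have : (0 : ℝ) < 1 / ((n : ℝ) + 1) := by positivity
        linarith)
    refine ⟨F, fun p q hpq => ?_⟩
    by_contra hcon
    push Not at hcon
    have : (p, q) ∈ {pq : P × P | 1 / ((n : ℝ) + 1) ≤ |f pq.1 - f pq.2|} ∩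
        ⋂ i ∈ F, {pq : P × P | c i pq.1 = c i pq.2} := by
      refine ⟨hcon, ?_⟩
      simp only [mem_iInter]
      exact fun i hi => hpq i hi
    rw [hF] at this
    exact this
  choose F hF using key
  refine ⟨⋃ n, (F n : Set ι), countable_iUnion fun n => (F n).countable_toSet, ?_⟩
  intro p q hpq
  by_contra hne
  have hpos : 0 < |f p - f q| := abs_pos.mpr (sub_ne_zero.mpr hne)
  obtain ⟨n, hn⟩ := exists_nat_one_div_lt hpos
  have := hF n p q (fun i hi => hpq i (mem_iUnion.mpr ⟨n, hi⟩))
  linarith

/-- The closure of `i` under a set mapping `S`. -/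
def hull {ι : Type*} (S : ι → Set ι) (i : ι) : Set ι :=
  ⋃ n : ℕ, ((fun A : Set ι => ⋃ a ∈ A, S a)^[n] {i})

theorem mem_hull {ι : Type*} (S : ι → Set ι) (i : ι) : i ∈ hull S i :=
  mem_iUnion.mpr ⟨0, rfl⟩

theorem hull_closed {ι : Type*} (S : ι → Set ι) (i j : ι) (hj : j ∈ hull S i) :
    S j ⊆ hull S i := by
  intro k hk
  obtain ⟨n, hn⟩ := mem_iUnion.mp hj
  refine mem_iUnion.mpr ⟨n + 1, ?_⟩
  rw [Function.iterate_succ_apply']
  exact mem_biUnion hn hk

theorem hull_countable {ι : Type*} (S : ι → Set ι) (hS : ∀ i, (S i).Countable) (i : ι) :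
    (hull S i).Countable := by
  refine countable_iUnion fun n => ?_
  induction n with
  | zero => exact countable_singleton i
  | succ n ih =>
    rw [Function.iterate_succ_apply']
    exact ih.biUnion fun a _ => hS a

end Pool.Agent.W_MP_3ca6e9_h18
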