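import Mathlib

/-!
# Infinite free sets for countable set mappings

If `Ξ` has more than `ℵ₁` elements and `N a` is a countable subset of `Ξ` for each `a`, there is an
infinite subset `F` of `Ξ` with `a ∉ N b` for all distinct `a, b ∈ F`.
-/

namespace Pool.Agent.W_MP_3ca6e9_h18

open Set Cardinal

universe u

/-- A set is free for the set mapping `N`. -/
def Free {Ξ : Type u} (N : Ξ → Set Ξ) (F : Set Ξ) : Prop :=
  ∀ a ∈ F, ∀ b ∈ F, a ≠ b → a ∉ N b

variable {Ξ : Type u} {N : Ξ → Set Ξ}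

theorem free_sUnion {c : Set (Set Ξ)} (hc : ∀ A ∈ c, Free N A) (hch : IsChain (· ⊆ ·) c) :
    Free N (⋃₀ c) := by
  rintro a ⟨A, hA, haA⟩ b ⟨B, hB, hbB⟩ hab
  rcases eq_or_ne A B with h | h
  · subst h
    exact hc A hA a haA b hbB hab
  · rcases hch hA hB h with h1 | h1
    · exact hc B hB a (h1 haA) b hbB hab
    · exact hc A hA a haA b (h1 hbB) hab

/-- Outside of a countable set there is a finite set meeting almost all `N a`. -/
theorem exists_transversal (hbig : ℵ₁ < #Ξ) (hN : ∀ a, (N a).Countable)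
    (hno : ∀ F, Free N F → F.Finite) (D : Set Ξ) (hD : D.Countable) :
    ∃ A : Set Ξ, A.Finite ∧ A.Nonempty ∧ Disjoint A D ∧ {a | N a ∩ A = ∅}.Countable := by
  obtain ⟨A, hA⟩ := zorn_subset {A : Set Ξ | A ⊆ Dᶜ ∧ Free N A} (by
    intro c hc hch
    refine ⟨⋃₀ c, ⟨sUnion_subset fun B hB => (hc hB).1,
      free_sUnion (fun B hB => (hc hB).2) hch⟩, fun s hs => subset_sUnion_of_mem hs⟩)
  have hAD : A ⊆ Dᶜ := hA.prop.1
  have hAF : Free N A := hA.prop.2
  have hfin := hno A hAF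
  have key : ∀ a, a ∉ D → a ∉ A → a ∉ ⋃ c ∈ A, N c → (N a ∩ A).Nonempty := by
    intro a haD haA ha1
    by_contra hne
    rw [not_nonempty_iff_eq_empty] at hne
    have hins : insert a A ∈ {A : Set Ξ | A ⊆ Dᶜ ∧ Free N A} := by
      refine ⟨insert_subset haD hAD, ?_⟩
      intro b hb c hc hbc hbN
      rcases hb with rfl | hb
      · rcases hc with rfl | hc
        · exact hbc rfl
        · exact ha1 (mem_biUnion hc hbN)
      · rcases hc with rfl | hc
        · have : b ∈ N c ∩ A := ⟨hbN, hb⟩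
          rw [hne] at this
          exact this
        · exact hAF b hb c hc hbc hbN
    have := hA.le_of_ge hins (subset_insert a A)
    exact haA (this (mem_insert a A))
  have hUc : (⋃ c ∈ A, N c).Countable := hfin.countable.biUnion fun c _ => hN c
  refine ⟨A, hfin, ?_, ?_, ?_⟩
  · by_contra hne
    rw [not_nonempty_iff_eq_empty] at hne
    have hex : ∃ a : Ξ, a ∉ D := by
      by_contra hall
      push Not at hall
      have h1 : D = Set.univ := eq_univ_of_forall hall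
      rw [h1] at hD
      have h2 : #Ξ ≤ ℵ₀ := by
        rw [← mk_univ]
        exact hD.le_aleph0
      exact absurd (hbig.trans_le h2) (not_lt.mpr aleph0_lt_aleph_one.le)
    obtain ⟨a, ha⟩ := hex
    have := key a ha (by rw [hne]; simp) (by simp [hne])
    rw [hne] at this
    simp at this
  · exact disjoint_left.mpr fun a ha => hAD ha
  · refine ((hD.union hfin.countable).union hUc).mono ?_
    intro a ha
    by_contra hcon
    simp only [mem_union, not_or] at hcon
    have := key a hcon.1.1 hcon.1.2 hcon.2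
    rw [ha] at this
    exact not_nonempty_empty this

/-- **Free set lemma.** -/
theorem exists_infinite_free (hbig : ℵ₁ < #Ξ) (hN : ∀ a, (N a).Countable) :
    ∃ F : Set Ξ, F.Infinite ∧ ∀ a ∈ F, ∀ b ∈ F, a ≠ b → a ∉ N b := by
  by_contra hcon
  have hno : ∀ F, Free N F → F.Finite := by
    intro F hF
    by_contra h
    exact hcon ⟨F, h, hF⟩
  obtain ⟨FF, hFF⟩ := zorn_subset {𝓕 : Set (Set Ξ) | (∀ A ∈ 𝓕, A.Finite ∧ A.Nonempty ∧
      {a | N a ∩ A = ∅}.Countable) ∧ ∀ A ∈ 𝓕, ∀ B ∈ 𝓕, A ≠ B → Disjoint A B} (by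
    intro c hc hch
    refine ⟨⋃₀ c, ⟨?_, ?_⟩, fun s hs => subset_sUnion_of_mem hs⟩
    · rintro A ⟨G, hG, hAG⟩
      exact (hc hG).1 A hAG
    · rintro A ⟨G, hG, hAG⟩ B ⟨H, hH, hBH⟩ hAB
      rcases eq_or_ne G H with h | h
      · subst h
        exact (hc hG).2 A hAG B hBH hAB
      · rcases hch hG hH h with h1 | h1
        · exact (hc hH).2 A (h1 hAG) B hBH hAB
        · exact (hc hG).2 A hAG B (h1 hBH) hAB)
  have h1 := hFF.prop.1
  have h2 := hFF.prop.2
  have hunc : ¬ FF.Countable := by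
    intro hcount
    have hD : (⋃₀ FF).Countable := hcount.sUnion fun A hA => (h1 A hA).1.countable
    obtain ⟨A, hAfin, hAne, hAdis, hAc⟩ := exists_transversal hbig hN hno _ hD
    have hins : insert A FF ∈ {𝓕 : Set (Set Ξ) | (∀ A ∈ 𝓕, A.Finite ∧ A.Nonempty ∧
      {a | N a ∩ A = ∅}.Countable) ∧ ∀ A ∈ 𝓕, ∀ B ∈ 𝓕, A ≠ B → Disjoint A B} := by
      have hdis : ∀ B ∈ FF, Disjoint A B := fun B hB =>
        hAdis.mono_right (subset_sUnion_of_mem hB)
      refine ⟨?_, ?_⟩
      · rintro B (rfl | hB)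
        · exact ⟨hAfin, hAne, hAc⟩
        · exact h1 B hB
      · rintro B (rfl | hB) C (rfl | hC) hBC
        · exact absurd rfl hBC
        · exact hdis C hC
        · exact (hdis B hB).symm
        · exact h2 B hB C hC hBC
    have hmem : A ∈ FF := hFF.le_of_ge hins (subset_insert A FF) (mem_insert A FF)
    obtain ⟨a, ha⟩ := hAne
    exact disjoint_left.mp hAdis ha (mem_sUnion_of_mem ha hmem)
  have hle : ℵ₁ ≤ #FF := by
    rw [aleph_one_le_iff]
    by_contra hc
    exact hunc (le_aleph0_iff_set_countable.mp (not_lt.mp hc))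
  obtain ⟨G, hGF, hGc⟩ := le_mk_iff_exists_subset.mp hle
  have hU : #(⋃ A ∈ G, {a | N a ∩ A = ∅} : Set Ξ) ≤ ℵ₁ := by
    rw [biUnion_eq_iUnion]
    have h3 := mk_iUnion_le_lift (fun A : G => {a | N a ∩ (A : Set Ξ) = ∅})
    simp only [lift_id] at h3
    refine h3.trans ?_
    rw [hGc]
    have h4 : (⨆ i : G, #({a | N a ∩ (i : Set Ξ) = ∅} : Set Ξ)) ≤ ℵ₀ := by
      apply ciSup_le'
      intro i
      exact (h1 i.1 (hGF i.2)).2.2.le_aleph0
    calc ℵ₁ * (⨆ i : G, #({a | N a ∩ (i : Set Ξ) = ∅} : Set Ξ)) ≤ ℵ₁ * ℵ₀ :=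
          mul_le_mul_right h4 _
      _ = ℵ₁ := mul_aleph0_eq aleph0_lt_aleph_one.le
  have hex : ∃ a : Ξ, a ∉ ⋃ A ∈ G, {a | N a ∩ A = ∅} := by
    by_contra hall
    push Not at hall
    have h3 : (⋃ A ∈ G, {a | N a ∩ A = ∅} : Set Ξ) = Set.univ := eq_univ_of_forall hall
    rw [h3, mk_univ] at hU
    exact absurd hbig (not_lt.mpr hU)
  obtain ⟨a, ha⟩ := hex
  simp only [mem_iUnion, not_exists] at ha
  have hne : ∀ A : G, ∃ b, b ∈ N a ∧ b ∈ (A : Set Ξ) := by
    intro A
    have := ha A.1 A.2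
    rw [mem_ofPred_eq] at this
    obtain ⟨b, hb⟩ := nonempty_iff_ne_empty.mpr this
    exact ⟨b, hb.1, hb.2⟩
  choose f hf1 hf2 using hne
  have hinj : Function.Injective (fun A : G => (⟨f A, hf1 A⟩ : N a)) := by
    intro A B hAB
    have hAB' : f A = f B := congrArg Subtype.val hAB
    by_contra hne'
    have hne'' : A.1 ≠ B.1 := fun h => hne' (Subtype.ext h)
    have := h2 A.1 (hGF A.2) B.1 (hGF B.2) hne''
    exact disjoint_left.mp this (hf2 A) (by rw [hAB']; exact hf2 B)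
  have h5 : #G ≤ #(N a) := mk_le_of_injective hinj
  rw [hGc] at h5
  have h6 := h5.trans (hN a).le_aleph0
  exact absurd h6 (not_le.mpr aleph0_lt_aleph_one)

end Pool.Agent.W_MP_3ca6e9_h18
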