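import Pool.Agent.W_MP_3ca6e9_an.Flat

/-!
# The convex compact set
-/

namespace Pool.Agent.W_MP_3ca6e9_h18

open Set Filter Topology Pool.Agent.W_MP_3ca6e9_an

/-- The index set: `(τ, ξ)` with `τ ∈ ℕ^ℕ`, and the blockers `((p, q), η)`. -/
abbrev II (κ : Type) := ((ℕ → ℕ) ⊕ (ℕ × ℕ)) × κ

/-- The conditions defining the convex compact set. -/
structure IsGood {κ : Type} (x : II κ → ℝ) : Prop where
  nonneg : ∀ i, 0 ≤ x i
  zsum : ∀ G : Finset ((ℕ × ℕ) × κ), ∑ p ∈ G, x (Sum.inr p.1, p.2) ≤ 1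
  block : ∀ (τ : ℕ → ℕ) (p : ℕ) (ξ η : κ), x (Sum.inl τ, ξ) + x (Sum.inr (p, τ p), η) ≤ 1
  ysum : ∀ (τ : ℕ → ℕ) (F : Finset κ), ∑ ξ ∈ F, x (Sum.inl τ, ξ) ≤ 1
  orl : ∀ (G : Finset (ℕ → ℕ)) (F : Finset κ),
    ∑ τ ∈ G, MM τ (∑ ξ ∈ F, x (Sum.inl τ, ξ)) ≤ 1

/-- The convex compact set. -/
def KK (κ : Type) : Set (II κ → ℝ) := {x | IsGood x}

variable {κ : Type}

theorem KK_convex : Convex ℝ (KK κ) := by
  intro x hx y hy a b ha hb hab
  have hs : ∀ (F : Finset κ) (v : II κ → ℝ) (w : II κ → ℝ) (τ : ℕ → ℕ),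
      ∑ ξ ∈ F, (a • v + b • w) (Sum.inl τ, ξ) =
      a * ∑ ξ ∈ F, v (Sum.inl τ, ξ) + b * ∑ ξ ∈ F, w (Sum.inl τ, ξ) := by
    intro F v w τ
    simp only [Pi.add_apply, Pi.smul_apply, smul_eq_mul, Finset.sum_add_distrib, Finset.mul_sum]
  refine ⟨fun i => ?_, fun G => ?_, fun τ p ξ η => ?_, fun τ F => ?_, fun G F => ?_⟩
  · simp only [Pi.add_apply, Pi.smul_apply, smul_eq_mul]
    exact add_nonneg (mul_nonneg ha (hx.nonneg i)) (mul_nonneg hb (hy.nonneg i))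
  · simp only [Pi.add_apply, Pi.smul_apply, smul_eq_mul, Finset.sum_add_distrib,
      ← Finset.mul_sum]
    have h1 := mul_le_mul_of_nonneg_left (hx.zsum G) ha
    have h2 := mul_le_mul_of_nonneg_left (hy.zsum G) hb
    linarith
  · simp only [Pi.add_apply, Pi.smul_apply, smul_eq_mul]
    have h1 := mul_le_mul_of_nonneg_left (hx.block τ p ξ η) ha
    have h2 := mul_le_mul_of_nonneg_left (hy.block τ p ξ η) hb
    linarith
  · rw [hs]
    have h1 := mul_le_mul_of_nonneg_left (hx.ysum τ F) ha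
    have h2 := mul_le_mul_of_nonneg_left (hy.ysum τ F) hb
    linarith
  · calc ∑ τ ∈ G, MM τ (∑ ξ ∈ F, (a • x + b • y) (Sum.inl τ, ξ))
        ≤ ∑ τ ∈ G, (a * MM τ (∑ ξ ∈ F, x (Sum.inl τ, ξ)) +
          b * MM τ (∑ ξ ∈ F, y (Sum.inl τ, ξ))) := by
          refine Finset.sum_le_sum fun τ _ => ?_
          rw [hs]
          exact (MM_convex τ).2 (mem_univ _) (mem_univ _) ha hb hab
      _ = a * ∑ τ ∈ G, MM τ (∑ ξ ∈ F, x (Sum.inl τ, ξ)) +
          b * ∑ τ ∈ G, MM τ (∑ ξ ∈ F, y (Sum.inl τ, ξ)) := by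
          rw [Finset.sum_add_distrib, Finset.mul_sum, Finset.mul_sum]
      _ ≤ 1 := by
          have h1 := mul_le_mul_of_nonneg_left (hx.orl G F) ha
          have h2 := mul_le_mul_of_nonneg_left (hy.orl G F) hb
          linarith

theorem MM_continuous (τ : ℕ → ℕ) : Continuous (MM τ) := by
  have h := (MM_convex τ).continuousOn_interior
  rw [interior_univ] at h
  exact continuousOn_univ.mp h

theorem IsGood.le_one {x : II κ → ℝ} (hx : IsGood x) (i : II κ) : x i ≤ 1 := by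
  obtain ⟨(τ | u), ξ⟩ := i
  · have := hx.ysum τ {ξ}
    rwa [Finset.sum_singleton] at this
  · have := hx.zsum {(u, ξ)}
    rwa [Finset.sum_singleton] at this

theorem KK_isClosed : IsClosed (KK κ) := by
  have h : KK κ = (⋂ i, {x : II κ → ℝ | 0 ≤ x i}) ∩
      (⋂ G : Finset ((ℕ × ℕ) × κ), {x : II κ → ℝ | ∑ p ∈ G, x (Sum.inr p.1, p.2) ≤ 1}) ∩
      (⋂ (τ : ℕ → ℕ) (p : ℕ) (ξ : κ) (η : κ),
        {x : II κ → ℝ | x (Sum.inl τ, ξ) + x (Sum.inr (p, τ p), η) ≤ 1}) ∩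
      (⋂ (τ : ℕ → ℕ) (F : Finset κ), {x : II κ → ℝ | ∑ ξ ∈ F, x (Sum.inl τ, ξ) ≤ 1}) ∩
      (⋂ (G : Finset (ℕ → ℕ)) (F : Finset κ),
        {x : II κ → ℝ | ∑ τ ∈ G, MM τ (∑ ξ ∈ F, x (Sum.inl τ, ξ)) ≤ 1}) := by
    ext x
    simp only [mem_inter_iff, mem_iInter, mem_ofPred_eq]
    constructor
    · intro hx
      exact ⟨⟨⟨⟨hx.nonneg, hx.zsum⟩, hx.block⟩, hx.ysum⟩, hx.orl⟩
    · rintro ⟨⟨⟨⟨h1, h2⟩, h3⟩, h4⟩, h5⟩
      exact ⟨h1, h2, h3, h4, h5⟩
  rw [h]
  refine IsClosed.inter (IsClosed.inter (IsClosed.inter (IsClosed.inter ?_ ?_) ?_) ?_) ?_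
  · exact isClosed_iInter fun i => isClosed_le continuous_const (continuous_apply i)
  · exact isClosed_iInter fun G => isClosed_le
      (continuous_finsetSum _ fun p _ => continuous_apply _) continuous_const
  · exact isClosed_iInter fun τ => isClosed_iInter fun p => isClosed_iInter fun ξ =>
      isClosed_iInter fun η => isClosed_le (by fun_prop) continuous_const
  · exact isClosed_iInter fun τ => isClosed_iInter fun F => isClosed_le
      (continuous_finsetSum _ fun p _ => continuous_apply _) continuous_const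
  · exact isClosed_iInter fun G => isClosed_iInter fun F => isClosed_le
      (continuous_finsetSum _ fun τ _ => (MM_continuous τ).comp
        (continuous_finsetSum _ fun p _ => continuous_apply _)) continuous_const

theorem KK_isCompact : IsCompact (KK κ) := by
  have h1 : IsCompact (Set.pi univ (fun _ : II κ => Icc (0 : ℝ) 1)) :=
    isCompact_univ_pi (fun _ => isCompact_Icc)
  refine h1.of_isClosed_subset KK_isClosed ?_
  intro x hx i _
  exact ⟨hx.nonneg i, hx.le_one i⟩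

/-! ### Embedding in a Musielak-Orlicz ball -/

theorem _root_.Pool.Agent.W_MP_3ca6e9_an.IsOrlicz.half {M : ℝ → ℝ} (hM : IsOrlicz M) :
    IsOrlicz fun t => M t / 2 where
  zero := by simp [hM.zero]
  pos t ht := by have := hM.pos t ht; positivity
  convex := by
    have h := hM.convex.smul (c := (1 / 2 : ℝ)) (by norm_num)
    refine h.congr fun t _ => ?_
    simp only [smul_eq_mul]
    ring
  cont := hM.cont.div_const 2

theorem isOrlicz_id : IsOrlicz fun t => t where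
  zero := rfl
  pos _ ht := ht
  convex := convexOn_id (convex_Ici 0)
  cont := continuousOn_id

/-- The Orlicz functions of the coordinates. -/
noncomputable def OO (i : II κ) : ℝ → ℝ :=
  match i.1 with
  | Sum.inl τ => fun t => MM τ t / 2
  | Sum.inr _ => fun t => t / 2

theorem OO_isOrlicz (i : II κ) : IsOrlicz (OO i) := by
  obtain ⟨(τ | u), ξ⟩ := i
  · exact (MM_isOrlicz τ).half
  · exact isOrlicz_id.half

theorem IsOrlicz_superadd {M : ℝ → ℝ} (hM : IsOrlicz M) {a b : ℝ} (ha : 0 ≤ a) (hb : 0 ≤ b) :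
    M a + M b ≤ M (a + b) := by
  rcases ha.eq_or_lt with h | h
  · rw [← h, hM.zero, zero_add, zero_add]
  have hab : 0 < a + b := by linarith
  have h1 := hM.smul_le (t := a + b) hab.le (a := a / (a + b)) (by positivity)
    (by rw [div_le_one hab]; linarith)
  have h2 := hM.smul_le (t := a + b) hab.le (a := b / (a + b)) (by positivity)
    (by rw [div_le_one hab]; linarith)
  rw [div_mul_cancel₀ _ hab.ne'] at h1 h2
  have h3 : a / (a + b) + b / (a + b) = 1 := by rw [← add_div, div_self hab.ne']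
  have h4 : a / (a + b) * M (a + b) + b / (a + b) * M (a + b) = M (a + b) := by
    rw [← add_mul, h3, one_mul]
  linarith

theorem IsOrlicz_sum_le {M : ℝ → ℝ} (hM : IsOrlicz M) {α : Type*} (F : Finset α) (v : α → ℝ)
    (hv : ∀ a, 0 ≤ v a) : ∑ a ∈ F, M (v a) ≤ M (∑ a ∈ F, v a) := by
  classical
  induction F using Finset.induction_on with
  | empty => simp [hM.zero]
  | insert a s ha ih =>
    rw [Finset.sum_insert ha, Finset.sum_insert ha]
    exact (add_le_add le_rfl ih).trans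
      (IsOrlicz_superadd hM (hv a) (Finset.sum_nonneg fun b _ => hv b))

theorem KK_subset_moBall : KK κ ⊆ moBall (OO (κ := κ)) := by
  classical
  intro x hx F
  have habs : ∀ i, |x i| = x i := fun i => abs_of_nonneg (hx.nonneg i)
  simp only [habs]
  have hsub : F ⊆ (((F.image Prod.fst).toLeft ×ˢ (F.image Prod.snd)).image
        fun p => ((Sum.inl p.1 : (ℕ → ℕ) ⊕ (ℕ × ℕ)), p.2)) ∪
      (((F.image Prod.fst).toRight ×ˢ (F.image Prod.snd)).image
        fun p => ((Sum.inr p.1 : (ℕ → ℕ) ⊕ (ℕ × ℕ)), p.2)) := by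
    rintro ⟨(τ | u), ξ⟩ hi
    · refine Finset.mem_union_left _ (Finset.mem_image.mpr ⟨(τ, ξ), ?_, rfl⟩)
      rw [Finset.mem_product, Finset.mem_toLeft]
      exact ⟨Finset.mem_image.mpr ⟨_, hi, rfl⟩, Finset.mem_image.mpr ⟨_, hi, rfl⟩⟩
    · refine Finset.mem_union_right _ (Finset.mem_image.mpr ⟨(u, ξ), ?_, rfl⟩)
      rw [Finset.mem_product, Finset.mem_toRight]
      exact ⟨Finset.mem_image.mpr ⟨_, hi, rfl⟩, Finset.mem_image.mpr ⟨_, hi, rfl⟩⟩
  have hnn : ∀ i, 0 ≤ OO i (x i) := fun i => (OO_isOrlicz i).nonneg (hx.nonneg i)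
  set GA := (F.image Prod.fst).toLeft
  set GB := (F.image Prod.fst).toRight
  set FK := F.image Prod.snd
  have h1 : ∑ i ∈ ((GA ×ˢ FK).image fun p => ((Sum.inl p.1 : (ℕ → ℕ) ⊕ (ℕ × ℕ)), p.2)),
      OO i (x i) ≤ 1 / 2 := by
    rw [Finset.sum_image (by
      rintro ⟨a, b⟩ _ ⟨c, d⟩ _ h
      simpa using h)]
    rw [Finset.sum_product]
    calc ∑ τ ∈ GA, ∑ ξ ∈ FK, OO ((Sum.inl τ : (ℕ → ℕ) ⊕ (ℕ × ℕ)), ξ) (x (Sum.inl τ, ξ))
        ≤ ∑ τ ∈ GA, MM τ (∑ ξ ∈ FK, x (Sum.inl τ, ξ)) / 2 := by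
          refine Finset.sum_le_sum fun τ _ => ?_
          have h := IsOrlicz_sum_le (MM_isOrlicz τ) FK (fun ξ => x (Sum.inl τ, ξ))
            (fun ξ => hx.nonneg _)
          have h' : ∑ ξ ∈ FK, OO ((Sum.inl τ : (ℕ → ℕ) ⊕ (ℕ × ℕ)), ξ) (x (Sum.inl τ, ξ)) =
              (∑ ξ ∈ FK, MM τ (x (Sum.inl τ, ξ))) / 2 := by
            rw [Finset.sum_div]
            rfl
          rw [h']
          linarith
      _ ≤ 1 / 2 := by
          rw [← Finset.sum_div]
          have := hx.orl GA FK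
          linarith
  have h2 : ∑ i ∈ ((GB ×ˢ FK).image fun p => ((Sum.inr p.1 : (ℕ → ℕ) ⊕ (ℕ × ℕ)), p.2)),
      OO i (x i) ≤ 1 / 2 := by
    rw [Finset.sum_image (by
      rintro ⟨a, b⟩ _ ⟨c, d⟩ _ h
      simpa using h)]
    have h := hx.zsum (GB ×ˢ FK)
    have h' : ∑ p ∈ GB ×ˢ FK, OO ((Sum.inr p.1 : (ℕ → ℕ) ⊕ (ℕ × ℕ)), p.2)
        (x (Sum.inr p.1, p.2)) = (∑ p ∈ GB ×ˢ FK, x (Sum.inr p.1, p.2)) / 2 := by
      rw [Finset.sum_div]
      rfl
    rw [h']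
    linarith
  refine (Finset.sum_le_sum_of_subset_of_nonneg hsub fun i _ _ => hnn i).trans ?_
  have h3 := Finset.sum_union_inter (f := fun i => OO i (x i))
    (s₁ := (GA ×ˢ FK).image fun p => ((Sum.inl p.1 : (ℕ → ℕ) ⊕ (ℕ × ℕ)), p.2))
    (s₂ := (GB ×ˢ FK).image fun p => ((Sum.inr p.1 : (ℕ → ℕ) ⊕ (ℕ × ℕ)), p.2))
  have h4 : 0 ≤ ∑ i ∈ ((GA ×ˢ FK).image fun p => ((Sum.inl p.1 : (ℕ → ℕ) ⊕ (ℕ × ℕ)), p.2)) ∩
      ((GB ×ˢ FK).image fun p => ((Sum.inr p.1 : (ℕ → ℕ) ⊕ (ℕ × ℕ)), p.2)), OO i (x i) :=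
    Finset.sum_nonneg fun i _ => hnn i
  linarith

theorem KK_embed : ∃ S : Set (WeakSpace ℝ (lp (fun _ : II κ => ℝ) 2)), IsCompact S ∧
    Nonempty (KK κ ≃ₜ S) := by
  obtain ⟨e⟩ := nonempty_homeo (M := OO (κ := κ)) OO_isOrlicz
  have : CompactSpace (KK κ) := isCompact_iff_compactSpace.mp KK_isCompact
  let f : KK κ → WeakSpace ℝ (lp (fun _ : II κ => ℝ) 2) :=
    fun x => (e ⟨x.1, KK_subset_moBall x.2⟩).1
  have hf : Continuous f := continuous_subtype_val.comp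
    (e.continuous.comp (continuous_subtype_val.subtype_mk _))
  have hinj : Function.Injective f := by
    intro x y hxy
    have h1 := e.injective (Subtype.ext hxy)
    rw [Subtype.mk.injEq] at h1
    exact Subtype.ext h1
  exact ⟨range f, isCompact_range hf, ⟨(hf.isClosedEmbedding hinj).isEmbedding.toHomeomorph⟩⟩

theorem KK_eberlein : ∃ (X : Type) (_ : NormedAddCommGroup X) (_ : NormedSpace ℝ X)
    (_ : CompleteSpace X) (S : Set (WeakSpace ℝ X)), IsCompact S ∧ Nonempty (KK κ ≃ₜ S) := by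
  obtain ⟨S, hS, hh⟩ := KK_embed (κ := κ)
  exact ⟨lp (fun _ : II κ => ℝ) 2, inferInstance, inferInstance, inferInstance, S, hS, hh⟩

theorem KK_hilbert : ∃ (H : Type) (_ : NormedAddCommGroup H) (_ : InnerProductSpace ℝ H)
    (_ : CompleteSpace H) (S : Set (WeakSpace ℝ H)), IsCompact S ∧ Nonempty (KK κ ≃ₜ S) := by
  obtain ⟨S, hS, hh⟩ := KK_embed (κ := κ)
  exact ⟨lp (fun _ : II κ => ℝ) 2, inferInstance, inferInstance, inferInstance, S, hS, hh⟩

end Pool.Agent.W_MP_3ca6e9_h18
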