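import Pool.Agent.W_MP_3ca6e9_h18.KSet

/-!
# Some points of the convex compact set
-/

namespace Pool.Agent.W_MP_3ca6e9_h18

open Set Filter Topology Pool.Agent.W_MP_3ca6e9_an

variable {κ : Type}

open Classical in
/-- The vector `a e_(τ, ξ) + b e_(u, η)`. -/
noncomputable def vec (τ : ℕ → ℕ) (ξ : κ) (u : ℕ × ℕ) (η : κ) (a b : ℝ) : II κ → ℝ
  | (Sum.inl τ', ξ') => if τ' = τ ∧ ξ' = ξ then a else 0
  | (Sum.inr u', η') => if u' = u ∧ η' = η then b else 0

theorem vec_good {τ : ℕ → ℕ} {ξ : κ} {u : ℕ × ℕ} {η : κ} {a b : ℝ} (ha : 0 ≤ a) (ha1 : a ≤ 1)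
    (hb : 0 ≤ b) (hb1 : b ≤ 1) (hab : a = 0 ∨ b = 0 ∨ ∀ p, (p, τ p) ≠ u) :
    IsGood (vec τ ξ u η a b) := by
  classical
  have hys : ∀ (τ' : ℕ → ℕ) (F : Finset κ), ∑ ξ' ∈ F, vec τ ξ u η a b (Sum.inl τ', ξ') ≤
      if τ' = τ then a else 0 := by
    intro τ' F
    by_cases h : τ' = τ
    · rw [if_pos h]
      simp only [vec, h, true_and]
      rw [Finset.sum_ite_eq']
      split_ifs <;> simp [ha]
    · rw [if_neg h]
      simp [vec, h]
  have hnn : ∀ i, 0 ≤ vec τ ξ u η a b i := by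
    rintro ⟨(τ' | u'), ξ'⟩
    · simp only [vec]; split_ifs <;> simp [ha]
    · simp only [vec]; split_ifs <;> simp [hb]
  refine ⟨hnn, ?_, ?_, ?_, ?_⟩
  · intro G
    calc ∑ p ∈ G, vec τ ξ u η a b (Sum.inr p.1, p.2)
        = ∑ p ∈ G, if p = (u, η) then b else 0 := by
          refine Finset.sum_congr rfl fun p _ => ?_
          obtain ⟨p1, p2⟩ := p
          simp only [vec, Prod.mk.injEq]
      _ ≤ 1 := by
          rw [Finset.sum_ite_eq']
          split_ifs
          · exact hb1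
          · exact zero_le_one
  · intro τ' p ξ' η'
    simp only [vec]
    by_cases h1 : τ' = τ ∧ ξ' = ξ
    · by_cases h2 : (p, τ' p) = u ∧ η' = η
      · rw [if_pos h1, if_pos h2]
        rcases hab with h | h | h
        · rw [h, zero_add]; exact hb1
        · rw [h, add_zero]; exact ha1
        · exact absurd (h1.1 ▸ h2.1) (h p)
      · rw [if_pos h1, if_neg h2, add_zero]; exact ha1
    · rw [if_neg h1, zero_add]
      split_ifs
      · exact hb1
      · exact zero_le_one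
  · intro τ' F
    refine (hys τ' F).trans ?_
    split_ifs
    · exact ha1
    · exact zero_le_one
  · intro G F
    calc ∑ τ' ∈ G, MM τ' (∑ ξ' ∈ F, vec τ ξ u η a b (Sum.inl τ', ξ'))
        ≤ ∑ τ' ∈ G, if τ' = τ then 1 else 0 := by
          refine Finset.sum_le_sum fun τ' _ => ?_
          have h0 : 0 ≤ ∑ ξ' ∈ F, vec τ ξ u η a b (Sum.inl τ', ξ') :=
            Finset.sum_nonneg fun ξ' _ => hnn _
          have h1 := (MM_isOrlicz τ').mono h0 (hys τ' F)
          refine h1.trans ?_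
          split_ifs
          · exact ((MM_isOrlicz τ').mono ha ha1).trans (MM_one_le τ')
          · rw [(MM_isOrlicz τ').zero]
      _ ≤ 1 := by
          rw [Finset.sum_ite_eq']
          split_ifs
          · exact le_rfl
          · exact zero_le_one

open Classical in
/-- The vector with rows `W n` at the types `τs n`. -/
noncomputable def rows (τs : ℕ → ℕ → ℕ) (W : ℕ → κ → ℝ) : II κ → ℝ
  | (Sum.inl τ, ξ) => if h : ∃ n, τs n = τ then W h.choose ξ else 0
  | (Sum.inr _, _) => 0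

theorem rows_inl {τs : ℕ → ℕ → ℕ} (hinj : Function.Injective τs) (W : ℕ → κ → ℝ) (n : ℕ)
    (ξ : κ) : rows τs W (Sum.inl (τs n), ξ) = W n ξ := by
  have h : ∃ m, τs m = τs n := ⟨n, rfl⟩
  have h2 : h.choose = n := hinj h.choose_spec
  simp only [rows, dif_pos h, h2]

theorem rows_inl' {τs : ℕ → ℕ → ℕ} (W : ℕ → κ → ℝ) (τ : ℕ → ℕ) (ξ : κ)
    (hτ : ∀ n, τs n ≠ τ) : rows τs W (Sum.inl τ, ξ) = 0 := by
  have h : ¬ ∃ m, τs m = τ := fun ⟨n, hn⟩ => hτ n hn
  simp only [rows, dif_neg h]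

theorem rows_good {τs : ℕ → ℕ → ℕ} {k : ℕ} (hmono : StrictMono fun n => τs n k)
    {W : ℕ → κ → ℝ} (hW : ∀ n ξ, 0 ≤ W n ξ)
    (hW1 : ∀ n (F : Finset κ), ∑ ξ ∈ F, W n ξ ≤ (1 / 2) ^ k) : IsGood (rows τs W) := by
  classical
  have hinj : Function.Injective τs := by
    intro m n hmn
    exact hmono.injective (congrFun hmn k)
  have hk1 : ((1 : ℝ) / 2) ^ k ≤ 1 := pow_le_one₀ (by norm_num) (by norm_num)
  have hnn : ∀ i, 0 ≤ rows τs W i := by
    rintro ⟨(τ | u), ξ⟩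
    · by_cases h : ∃ n, τs n = τ
      · obtain ⟨n, rfl⟩ := h
        rw [rows_inl hinj]
        exact hW n ξ
      · rw [rows_inl' W τ ξ (fun n hn => h ⟨n, hn⟩)]
    · exact le_rfl
  have hys : ∀ (τ : ℕ → ℕ) (F : Finset κ), ∑ ξ ∈ F, rows τs W (Sum.inl τ, ξ) ≤
      if ∃ n, τs n = τ then (1 / 2) ^ k else 0 := by
    intro τ F
    by_cases h : ∃ n, τs n = τ
    · rw [if_pos h]
      obtain ⟨n, rfl⟩ := h
      simp only [rows_inl hinj]
      exact hW1 n F
    · rw [if_neg h]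
      simp only [rows_inl' W τ _ (fun n hn => h ⟨n, hn⟩), Finset.sum_const_zero, le_refl]
  refine ⟨hnn, ?_, ?_, ?_, ?_⟩
  · intro G
    simp only [rows, Finset.sum_const_zero]
    exact zero_le_one
  · intro τ p ξ η
    have h1 := hys τ {ξ}
    rw [Finset.sum_singleton] at h1
    have h2 : rows τs W (Sum.inr (p, τ p), η) = 0 := rfl
    rw [h2, add_zero]
    refine h1.trans ?_
    split_ifs
    · exact hk1
    · exact zero_le_one
  · intro τ F
    refine (hys τ F).trans ?_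
    split_ifs
    · exact hk1
    · exact zero_le_one
  · intro G F
    have h1 : ∀ τ, MM τ (∑ ξ ∈ F, rows τs W (Sum.inl τ, ξ)) ≤
        if ∃ n, τs n = τ then (1 / 3 : ℝ) * (1 / 2) ^ τ k else 0 := by
      intro τ
      have h0 : 0 ≤ ∑ ξ ∈ F, rows τs W (Sum.inl τ, ξ) :=
        Finset.sum_nonneg fun ξ' _ => hnn _
      refine ((MM_isOrlicz τ).mono h0 (hys τ F)).trans ?_
      split_ifs
      · exact MM_le τ k
      · rw [(MM_isOrlicz τ).zero]
    have hinj2 : Set.InjOn (fun τ : ℕ → ℕ => τ k)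
        ((G.filter (fun τ => ∃ n, τs n = τ) : Finset (ℕ → ℕ)) : Set (ℕ → ℕ)) := by
      intro τ hτ δ hδ hτδ
      simp only [Finset.coe_filter, mem_ofPred_eq] at hτ hδ
      obtain ⟨-, m, rfl⟩ := hτ
      obtain ⟨-, n, rfl⟩ := hδ
      rw [hmono.injective hτδ]
    have hs : Summable (fun n : ℕ => (1 / 3 : ℝ) * (1 / 2) ^ n) :=
      (summable_geometric_of_lt_one (by norm_num) (by norm_num)).mul_left _
    calc ∑ τ ∈ G, MM τ (∑ ξ ∈ F, rows τs W (Sum.inl τ, ξ))
        ≤ ∑ τ ∈ G, if ∃ n, τs n = τ then (1 / 3 : ℝ) * (1 / 2) ^ τ k else 0 :=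
          Finset.sum_le_sum fun τ _ => h1 τ
      _ = ∑ τ ∈ G.filter (fun τ => ∃ n, τs n = τ), (1 / 3 : ℝ) * (1 / 2) ^ τ k := by
          rw [Finset.sum_filter]
      _ = ∑ n ∈ (G.filter (fun τ => ∃ n, τs n = τ)).image (fun τ => τ k),
            (1 / 3 : ℝ) * (1 / 2) ^ n := by
          rw [Finset.sum_image hinj2]
      _ ≤ ∑' n : ℕ, (1 / 3 : ℝ) * (1 / 2) ^ n := hs.sum_le_tsum _ (fun n _ => by positivity)
      _ = 2 / 3 := by
          rw [tsum_mul_left, tsum_geometric_of_lt_one (by norm_num) (by norm_num)]; norm_num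
      _ ≤ 1 := by norm_num

end Pool.Agent.W_MP_3ca6e9_h18
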