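import Pool.Agent.W_MP_3ca6e9_h18.Str
import Pool.Agent.W_MP_3ca6e9_h18.Vec
import Pool.Agent.W_MP_3ca6e9_h18.Combi

/-!
# The convex compact set is not homeomorphic to a convex weakly compact set
-/

namespace Pool.Agent.W_MP_3ca6e9_h18

open Set Filter Topology Pool.Agent.W_MP_3ca6e9_an

section agree

variable {ι : Type*} {K : Set (ι → ℝ)} {Y : Type*} [NormedAddCommGroup Y] [NormedSpace ℝ Y]
  {C : Set (WeakSpace ℝ Y)}

theorem agree_mix (h : K ≃ₜ C) {N : Set ι} (hN : Convex ℝ (agree h N)) {s : ℝ} (hs0 : 0 ≤ s)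
    (hs1 : s ≤ 1) {x x' y y' z z' : K} (hz : uu h z = s • uu h x + (1 - s) • uu h y)
    (hz' : uu h z' = s • uu h x' + (1 - s) • uu h y') (hx : ∀ i ∈ N, x.1 i = x'.1 i)
    (hy : ∀ i ∈ N, y.1 i = y'.1 i) : ∀ i ∈ N, z.1 i = z'.1 i := by
  rw [← mem_agree_iff h N] at hx hy ⊢
  rw [hz, hz']
  exact hN hx hy hs0 (by linarith) (by ring)

theorem agree_sum (h : K ≃ₜ C) {N : Set ι} (hN : Convex ℝ (agree h N)) {J : Type*}
    (t : Finset J) (w : J → ℝ) (hw : ∀ j ∈ t, 0 ≤ w j) (hw1 : ∑ j ∈ t, w j = 1) (x x' : J → K)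
    (hx : ∀ j ∈ t, ∀ i ∈ N, (x j).1 i = (x' j).1 i) {z z' : K}
    (hz : uu h z = ∑ j ∈ t, w j • uu h (x j)) (hz' : uu h z' = ∑ j ∈ t, w j • uu h (x' j)) :
    ∀ i ∈ N, z.1 i = z'.1 i := by
  have h1 := hN.sum_mem hw hw1 (z := fun j => (uu h (x j), uu h (x' j)))
    (fun j hj => (mem_agree_iff h N _ _).mpr (hx j hj))
  rw [← mem_agree_iff h N]
  have h2 : ∑ j ∈ t, w j • (uu h (x j), uu h (x' j)) = (uu h z, uu h z') := by
    rw [hz, hz']
    ext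
    · simp [Prod.fst_sum]
    · simp [Prod.snd_sum]
  rw [← h2]
  exact h1

end agree

variable {κ : Type}

/-- The zero vector. -/
noncomputable def Z0 [Inhabited κ] : KK κ :=
  ⟨vec 0 default (0, 0) default 0 0, vec_good le_rfl zero_le_one le_rfl zero_le_one (Or.inl rfl)⟩

/-- The unit vector at `(τ, ξ)`. -/
noncomputable def E1 (τ : ℕ → ℕ) (ξ : κ) : KK κ :=
  ⟨vec τ ξ (0, 0) ξ 1 0, vec_good zero_le_one le_rfl le_rfl zero_le_one (Or.inr (Or.inl rfl))⟩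

/-- The unit vector at `(u, η)`. -/
noncomputable def E2 (u : ℕ × ℕ) (η : κ) : KK κ :=
  ⟨vec 0 η u η 0 1, vec_good le_rfl zero_le_one zero_le_one le_rfl (Or.inl rfl)⟩

/-- The sum of two compatible unit vectors. -/
noncomputable def E3 (τ : ℕ → ℕ) (ξ : κ) (u : ℕ × ℕ) (η : κ) (hu : ∀ p, (p, τ p) ≠ u) : KK κ :=
  ⟨vec τ ξ u η 1 1, vec_good zero_le_one le_rfl zero_le_one le_rfl (Or.inr (Or.inr hu))⟩

theorem Z0_apply [Inhabited κ] (i : II κ) : (Z0 : KK κ).1 i = 0 := by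
  obtain ⟨(τ | u), ξ⟩ := i <;> simp [Z0, vec]

theorem E1_self (τ : ℕ → ℕ) (ξ : κ) : (E1 τ ξ).1 (Sum.inl τ, ξ) = 1 := by
  simp [E1, vec]

theorem E1_of_ne (τ : ℕ → ℕ) (ξ : κ) (i : II κ) (hi : i ≠ (Sum.inl τ, ξ)) :
    (E1 τ ξ).1 i = 0 := by
  obtain ⟨(τ' | u), ξ'⟩ := i
  · simp only [E1, vec]
    rw [if_neg]
    rintro ⟨rfl, rfl⟩
    exact hi rfl
  · simp [E1, vec]

theorem E2_self (u : ℕ × ℕ) (η : κ) : (E2 u η).1 (Sum.inr u, η) = 1 := by
  simp [E2, vec]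

theorem E2_of_ne (u : ℕ × ℕ) (η : κ) (i : II κ) (hi : i ≠ (Sum.inr u, η)) :
    (E2 u η).1 i = 0 := by
  obtain ⟨(τ' | u'), ξ'⟩ := i
  · simp [E2, vec]
  · simp only [E2, vec]
    rw [if_neg]
    rintro ⟨rfl, rfl⟩
    exact hi rfl

theorem E3_eq_E1 (τ : ℕ → ℕ) (ξ : κ) (u : ℕ × ℕ) (η : κ) (hu : ∀ p, (p, τ p) ≠ u) (i : II κ)
    (hi : i ≠ (Sum.inr u, η)) : (E3 τ ξ u η hu).1 i = (E1 τ ξ).1 i := by
  obtain ⟨(τ' | u'), ξ'⟩ := i
  · simp [E3, E1, vec]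
  · simp only [E3, E1, vec]
    rw [if_neg, ite_self]
    rintro ⟨rfl, rfl⟩
    exact hi rfl

theorem E3_eq_E2 (τ : ℕ → ℕ) (ξ : κ) (u : ℕ × ℕ) (η : κ) (hu : ∀ p, (p, τ p) ≠ u) (i : II κ)
    (hi : i ≠ (Sum.inl τ, ξ)) : (E3 τ ξ u η hu).1 i = (E2 u η).1 i := by
  obtain ⟨(τ' | u'), ξ'⟩ := i
  · simp only [E3, E2, vec]
    rw [if_neg, ite_self]
    rintro ⟨rfl, rfl⟩
    exact hi rfl
  · simp [E3, E2, vec]

variable {Y : Type*} [NormedAddCommGroup Y] [NormedSpace ℝ Y] {C : Set (WeakSpace ℝ Y)}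

/-- A blocked coordinate vanishes. -/
theorem blocked [Inhabited κ] (hC : Convex ℝ C) (h : KK κ ≃ₜ C) {N : II κ → Set (II κ)}
    (hmem : ∀ i, i ∈ N i) (hconv : ∀ i, Convex ℝ (agree h (N i))) {τ : ℕ → ℕ} {ξ η : κ}
    (hξη : ∀ v', (v', η) ∉ N (Sum.inl τ, ξ)) (hηξ : ∀ u v', (v', ξ) ∉ N (Sum.inr u, η))
    {s : ℝ} (hs0 : 0 ≤ s) (hs1 : s ≤ 1) {z : KK κ}
    (hz : uu h z = s • uu h (E1 τ ξ) + (1 - s) • uu h Z0) (i : II κ) (hi : i ∈ N (Sum.inl τ, ξ))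
    (hi' : ∀ ξ', i ≠ (Sum.inl τ, ξ')) : z.1 i = 0 := by
  have key : ∀ u : ℕ × ℕ, (∀ p, (p, τ p) ≠ u) → ∃ x : KK κ, x.1 (Sum.inr u, η) = 1 ∧
      x.1 i = z.1 i := by
    intro u hu
    obtain ⟨x, hx⟩ := uu_convex hC h ⟨E3 τ ξ u η hu, rfl⟩ ⟨E2 u η, rfl⟩ hs0
      (sub_nonneg.mpr hs1) (by ring)
    refine ⟨x, ?_, ?_⟩
    · have h2 : uu h (E2 u η) = s • uu h (E2 u η) + (1 - s) • uu h (E2 u η) := by
        rw [← add_smul]
        simp
      rw [agree_mix h (hconv (Sum.inr u, η)) hs0 hs1 hx h2 (fun i hi => ?_) (fun i _ => rfl)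
        _ (hmem _), E2_self]
      refine E3_eq_E2 τ ξ u η hu i ?_
      rintro rfl
      exact hηξ u _ hi
    · refine agree_mix h (hconv (Sum.inl τ, ξ)) hs0 hs1 hx hz (fun i hi => ?_) (fun i hi => ?_)
        i hi
      · refine E3_eq_E1 τ ξ u η hu i ?_
        rintro rfl
        exact hξη _ hi
      · rw [Z0_apply]
        refine E2_of_ne u η i ?_
        rintro rfl
        exact hξη _ hi
  obtain ⟨(τ' | u'), ξ'⟩ := i
  · have hne : τ' ≠ τ := by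
      rintro rfl
      exact hi' ξ' rfl
    obtain ⟨p, hp⟩ := Function.ne_iff.mp hne
    obtain ⟨x, hx1, hx2⟩ := key (p, τ' p) (by
      intro p' hp'
      rw [Prod.mk.injEq] at hp'
      obtain ⟨rfl, h2⟩ := hp'
      exact hp h2.symm)
    have hb := x.2.block τ' p ξ' η
    rw [hx1, hx2] at hb
    have := z.2.nonneg (Sum.inl τ', ξ')
    linarith
  · obtain ⟨x, hx1, hx2⟩ := key (0, τ 0 + 1) (by
      intro p' hp'
      rw [Prod.mk.injEq] at hp'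
      obtain ⟨rfl, h2⟩ := hp'
      omega)
    classical
    have hne : (u', ξ') ≠ ((0, τ 0 + 1), η) := by
      intro heq
      rw [Prod.mk.injEq] at heq
      obtain ⟨rfl, rfl⟩ := heq
      exact hξη _ hi
    have hb := x.2.zsum {(u', ξ'), ((0, τ 0 + 1), η)}
    rw [Finset.sum_pair hne, hx1, hx2] at hb
    have := z.2.nonneg (Sum.inr u', ξ')
    linarith

/-- The multiples of `e_(τ, ξ)` vanish on the hulls that do not contain it. -/
theorem vanish [Inhabited κ] (h : KK κ ≃ₜ C) {N : Set (II κ)}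
    (hconv : Convex ℝ (agree h N)) {τ : ℕ → ℕ} {ξ : κ}
    (hN : (Sum.inl τ, ξ) ∉ N) {s : ℝ} (hs0 : 0 ≤ s) (hs1 : s ≤ 1) {z : KK κ}
    (hz : uu h z = s • uu h (E1 τ ξ) + (1 - s) • uu h Z0) (i : II κ) (hi : i ∈ N) :
    z.1 i = 0 := by
  have h2 : uu h (Z0 : KK κ) = s • uu h Z0 + (1 - s) • uu h Z0 := by
    rw [← add_smul]
    simp
  rw [agree_mix h hconv hs0 hs1 hz h2 (fun i hi => ?_) (fun i _ => rfl) i hi, Z0_apply]
  rw [Z0_apply]
  refine E1_of_ne τ ξ i ?_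
  rintro rfl
  exact hN hi

open Classical in
/-- Among `m` free copies, one has a small multiple `1/m`. -/
theorem small_copy [Inhabited κ] (hC : Convex ℝ C) (h : KK κ ≃ₜ C) {N : II κ → Set (II κ)}
    (hconv : ∀ i, Convex ℝ (agree h (N i))) {τ : ℕ → ℕ} (m : ℕ)
    (hm : 0 < m) (ξ : Fin m → κ) (hfree : ∀ j l, j ≠ l → (Sum.inl τ, ξ j) ∉ N (Sum.inl τ, ξ l))
    (z : Fin m → KK κ)
    (hz : ∀ j, uu h (z j) = (1 / (m : ℝ)) • uu h (E1 τ (ξ j)) + (1 - 1 / (m : ℝ)) • uu h Z0) :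
    ∃ j, ∀ F : Finset κ, ∑ ζ ∈ F, (if ((Sum.inl τ, ζ) : II κ) ∈ N (Sum.inl τ, ξ j) then
      (z j).1 (Sum.inl τ, ζ) else 0) ≤ 1 / (m : ℝ) := by
  have hm' : (0 : ℝ) < m := Nat.cast_pos.mpr hm
  have hs0 : (0 : ℝ) ≤ 1 / m := by positivity
  have hs1 : (1 : ℝ) / m ≤ 1 := by
    rw [div_le_one hm']
    exact_mod_cast hm
  have hsum1 : ∑ _j : Fin m, (1 / (m : ℝ)) = 1 := by
    rw [Finset.sum_const, Finset.card_univ, Fintype.card_fin, nsmul_eq_mul]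
    field_simp
  obtain ⟨x, hx⟩ := (uu_convex hC h).sum_mem (t := Finset.univ) (w := fun _ : Fin m => 1 / (m : ℝ))
    (z := fun j => uu h (E1 τ (ξ j))) (fun _ _ => hs0) hsum1 (fun j _ => ⟨_, rfl⟩)
  have hxz : ∀ j, ∀ i ∈ N (Sum.inl τ, ξ j), x.1 i = (z j).1 i := by
    intro j
    refine agree_sum h (hconv _) Finset.univ (fun _ : Fin m => 1 / (m : ℝ)) (fun _ _ => hs0) hsum1
      (fun l => E1 τ (ξ l)) (fun l => if l = j then E1 τ (ξ j) else Z0) (fun l _ i hi => ?_) hx ?_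
    · by_cases hl : l = j
      · rw [if_pos hl, hl]
      · rw [if_neg hl, Z0_apply]
        refine E1_of_ne τ (ξ l) i ?_
        rintro rfl
        exact hfree l j hl hi
    · rw [hz j]
      have h1 : ∀ l : Fin m, (1 / (m : ℝ)) • uu h (if l = j then E1 τ (ξ j) else Z0) =
          (1 / (m : ℝ)) • uu h Z0 +
            if l = j then (1 / (m : ℝ)) • (uu h (E1 τ (ξ j)) - uu h Z0) else 0 := by
        intro l
        split_ifs
        · rw [← smul_add]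
          congr 1
          abel
        · rw [add_zero]
      simp only [h1]
      rw [Finset.sum_add_distrib, Finset.sum_ite_eq' Finset.univ j, if_pos (Finset.mem_univ j),
        ← Finset.sum_smul, hsum1, one_smul, smul_sub, sub_smul, one_smul]
      abel
  have hznn : ∀ j i, 0 ≤ (z j).1 i := fun j i => (z j).2.nonneg i
  by_contra hcon
  push Not at hcon
  choose F hF using hcon
  set W : Fin m → κ → ℝ := fun j ζ => if ((Sum.inl τ, ζ) : II κ) ∈ N (Sum.inl τ, ξ j) then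
      (z j).1 (Sum.inl τ, ζ) else 0 with hW
  have hWnn : ∀ j ζ, 0 ≤ W j ζ := by
    intro j ζ
    simp only [hW]
    split_ifs
    · exact hznn j _
    · exact le_rfl
  have hWx : ∀ ζ, ∑ j, W j ζ ≤ x.1 (Sum.inl τ, ζ) := by
    intro ζ
    by_cases hall : ∀ j, W j ζ = 0
    · rw [Finset.sum_eq_zero fun j _ => hall j]
      exact x.2.nonneg _
    · push Not at hall
      obtain ⟨j, hj⟩ := hall
      have hjN : ((Sum.inl τ, ζ) : II κ) ∈ N (Sum.inl τ, ξ j) := by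
        by_contra hnot
        exact hj (by simp only [hW]; rw [if_neg hnot])
      have hWj : W j ζ = (z j).1 (Sum.inl τ, ζ) := by
        simp only [hW]; rw [if_pos hjN]
      rw [Finset.sum_eq_single j, hWj, ← hxz j _ hjN]
      · intro l _ hlj
        simp only [hW]
        split_ifs with hlN
        · exact vanish h (hconv _) (hfree l j hlj) hs0 hs1 (hz l) _ hjN
        · rfl
      · intro hnot
        exact absurd (Finset.mem_univ j) hnot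
  have hge : ∀ j, 1 / (m : ℝ) < ∑ ζ ∈ Finset.univ.biUnion F, W j ζ := fun j =>
    (hF j).trans_le (Finset.sum_le_sum_of_subset_of_nonneg
      (Finset.subset_biUnion_of_mem F (Finset.mem_univ j)) fun ζ _ _ => hWnn j ζ)
  have hlt : (1 : ℝ) < 1 := by
    calc (1 : ℝ) = ∑ _j : Fin m, (1 / (m : ℝ)) := hsum1.symm
      _ < ∑ j : Fin m, ∑ ζ ∈ Finset.univ.biUnion F, W j ζ :=
        Finset.sum_lt_sum_of_nonempty ⟨⟨0, hm⟩, Finset.mem_univ _⟩ fun j _ => hge j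
      _ = ∑ ζ ∈ Finset.univ.biUnion F, ∑ j, W j ζ := Finset.sum_comm
      _ ≤ ∑ ζ ∈ Finset.univ.biUnion F, x.1 (Sum.inl τ, ζ) :=
        Finset.sum_le_sum fun ζ _ => hWx ζ
      _ ≤ 1 := x.2.ysum τ _
  exact lt_irrefl _ hlt

end Pool.Agent.W_MP_3ca6e9_h18
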