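import Pool.Agent.W_MP_3ca6e9_h18.Dep

/-!
# Convex structures transported to a compact set
-/

namespace Pool.Agent.W_MP_3ca6e9_h18

open Set Filter Topology

variable {ι : Type*} {K : Set (ι → ℝ)} {Y : Type*} [NormedAddCommGroup Y] [NormedSpace ℝ Y]
  {C : Set (WeakSpace ℝ Y)}

/-- The homeomorphism `h`, as a map with values in `Y`. -/
noncomputable def uu (h : K ≃ₜ C) (x : K) : Y := (toWeakSpace ℝ Y).symm (h x : WeakSpace ℝ Y)

theorem uu_injective (h : K ≃ₜ C) : Function.Injective (uu h) := by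
  intro x y hxy
  apply h.injective
  apply Subtype.ext
  exact (toWeakSpace ℝ Y).symm.injective hxy

theorem continuous_uu (h : K ≃ₜ C) (φ : StrongDual ℝ Y) : Continuous fun x => φ (uu h x) := by
  have h1 : Continuous fun w : WeakSpace ℝ Y => φ ((toWeakSpace ℝ Y).symm w) :=
    WeakBilin.eval_continuous (topDualPairing ℝ Y).flip φ
  exact h1.comp (continuous_subtype_val.comp h.continuous)

/-- The convex combination `s x + (1 - s) y` in the new convex structure. -/
noncomputable def mix (hC : Convex ℝ C) (h : K ≃ₜ C) (p : K × K × unitInterval) : K :=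
  h.symm ⟨(p.2.2 : ℝ) • (h p.1 : WeakSpace ℝ Y) + (1 - (p.2.2 : ℝ)) • (h p.2.1 : WeakSpace ℝ Y),
    hC (h p.1).2 (h p.2.1).2 p.2.2.2.1 (by have := p.2.2.2.2; linarith) (by ring)⟩

theorem continuous_mix (hC : Convex ℝ C) (h : K ≃ₜ C) : Continuous (mix hC h) := by
  refine h.symm.continuous.comp (Continuous.subtype_mk ?_ _)
  have h1 : Continuous fun p : K × K × unitInterval => (p.2.2 : ℝ) :=
    continuous_subtype_val.comp (continuous_snd.comp continuous_snd)
  have h2 : Continuous fun p : K × K × unitInterval => (h p.1 : WeakSpace ℝ Y) :=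
    continuous_subtype_val.comp (h.continuous.comp continuous_fst)
  have h3 : Continuous fun p : K × K × unitInterval => (h p.2.1 : WeakSpace ℝ Y) :=
    continuous_subtype_val.comp (h.continuous.comp (continuous_fst.comp continuous_snd))
  exact (h1.smul h2).add ((continuous_const.sub h1).smul h3)

theorem uu_mix (hC : Convex ℝ C) (h : K ≃ₜ C) (p : K × K × unitInterval) :
    uu h (mix hC h p) = (p.2.2 : ℝ) • uu h p.1 + (1 - (p.2.2 : ℝ)) • uu h p.2.1 := by
  unfold uu mix
  rw [h.apply_symm_apply]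
  simp only [map_add, map_smul]

theorem uu_convex (hC : Convex ℝ C) (h : K ≃ₜ C) : Convex ℝ (range (uu h)) := by
  rintro _ ⟨x, rfl⟩ _ ⟨y, rfl⟩ a b ha hb hab
  refine ⟨mix hC h (x, y, ⟨a, ha, by linarith⟩), ?_⟩
  rw [uu_mix]
  have : b = 1 - a := by linarith
  subst this
  rfl

/-- The pairs of points of `C` whose preimages agree on `N`. -/
def agree (h : K ≃ₜ C) (N : Set ι) : Set (Y × Y) :=
  {p | ∃ x x' : K, uu h x = p.1 ∧ uu h x' = p.2 ∧ ∀ i ∈ N, x.1 i = x'.1 i}

theorem mem_agree_iff (h : K ≃ₜ C) (N : Set ι) (x x' : K) :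
    (uu h x, uu h x') ∈ agree h N ↔ ∀ i ∈ N, x.1 i = x'.1 i := by
  constructor
  · rintro ⟨y, y', h1, h2, h3⟩
    rw [uu_injective h h1, uu_injective h h2] at h3
    exact h3
  · intro h1
    exact ⟨x, x', rfl, rfl, h1⟩

theorem exists_family (hK : IsCompact K) (hC : Convex ℝ C) (h : K ≃ₜ C)
    (φ : ι → StrongDual ℝ Y) : ∃ N : ι → Set ι, (∀ i, (N i).Countable) ∧ (∀ i, i ∈ N i) ∧
      (∀ i, Convex ℝ (agree h (N i))) ∧
      ∀ i, ∀ x x' : K, (∀ j ∈ N i, x.1 j = x'.1 j) → φ i (uu h x) = φ i (uu h x') := by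
  have : CompactSpace K := isCompact_iff_compactSpace.mp hK
  have h1 : ∀ i : ι, ∃ S : Set ι, S.Countable ∧ ∀ p q : K × K × unitInterval,
      (∀ j ∈ S, (p.1.1 j, p.2.1.1 j, p.2.2) = (q.1.1 j, q.2.1.1 j, q.2.2)) →
      (mix hC h p).1 i = (mix hC h q).1 i := by
    intro i
    refine countable_dep (fun (j : ι) (p : K × K × unitInterval) =>
      (p.1.1 j, p.2.1.1 j, p.2.2)) (fun j => ?_) ?_ (fun p => (mix hC h p).1 i) ?_
    · exact ((continuous_apply j).comp (continuous_subtype_val.comp continuous_fst)).prodMk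
        (((continuous_apply j).comp (continuous_subtype_val.comp
          (continuous_fst.comp continuous_snd))).prodMk (continuous_snd.comp continuous_snd))
    · rintro ⟨p1, p2, p3⟩ ⟨q1, q2, q3⟩ hpq
      simp only [Prod.mk.injEq] at hpq ⊢
      refine ⟨Subtype.ext (funext fun j => (hpq j).1), Subtype.ext (funext fun j => (hpq j).2.1),
        (hpq i).2.2⟩
    · exact (continuous_apply i).comp (continuous_subtype_val.comp (continuous_mix hC h))
  choose S hS1 hS2 using h1
  have h2 : ∀ i : ι, ∃ S : Set ι, S.Countable ∧ ∀ p q : K,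
      (∀ j ∈ S, p.1 j = q.1 j) → φ i (uu h p) = φ i (uu h q) := by
    intro i
    refine countable_dep (fun (j : ι) (p : K) => p.1 j) (fun j => ?_) ?_
      (fun p => φ i (uu h p)) (continuous_uu h (φ i))
    · exact (continuous_apply j).comp continuous_subtype_val
    · intro p q hpq
      exact Subtype.ext (funext hpq)
  choose S' hS1' hS2' using h2
  have hcl : ∀ i j, j ∈ hull (fun i => S i ∪ S' i) i → S j ⊆ hull (fun i => S i ∪ S' i) i :=
    fun i j hj => subset_union_left.trans (hull_closed (fun i => S i ∪ S' i) i j hj)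
  have hcl' : ∀ i j, j ∈ hull (fun i => S i ∪ S' i) i → S' j ⊆ hull (fun i => S i ∪ S' i) i :=
    fun i j hj => subset_union_right.trans (hull_closed (fun i => S i ∪ S' i) i j hj)
  refine ⟨hull (fun i => S i ∪ S' i), hull_countable _ (fun i => (hS1 i).union (hS1' i)),
    mem_hull _, ?_, ?_⟩
  · rintro i ⟨_, _⟩ ⟨x, x', rfl, rfl, hx⟩ ⟨_, _⟩ ⟨y, y', rfl, rfl, hy⟩ a b ha hb hab
    have hb' : b = 1 - a := by linarith
    subst hb'
    refine ⟨mix hC h (x, y, ⟨a, ha, by linarith⟩), mix hC h (x', y', ⟨a, ha, by linarith⟩),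
      ?_, ?_, ?_⟩
    · rw [uu_mix]; rfl
    · rw [uu_mix]; rfl
    · intro j hj
      apply hS2 j
      intro k hk
      have hk' := hcl i j hj hk
      simp only [Prod.mk.injEq]
      exact ⟨hx k hk', hy k hk', trivial⟩
  · intro i x x' hx
    exact hS2' i x x' fun j hj => hx j (hcl' i i (mem_hull _ i) hj)

theorem uu_mem_closure (h : K ≃ₜ C) (x : ℕ → K) (y : K)
    (hxy : Tendsto x atTop (𝓝 y)) :
    uu h y ∈ closure (convexHull ℝ (range fun n => uu h (x n))) := by
  have h1 : Tendsto (fun n => (h (x n) : WeakSpace ℝ Y)) atTop (𝓝 (h y : WeakSpace ℝ Y)) :=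
    (continuous_subtype_val.comp h.continuous).continuousAt.tendsto.comp hxy
  have h2 : (h y : WeakSpace ℝ Y) ∈ closure (toWeakSpace ℝ Y ''
      (convexHull ℝ (range fun n => uu h (x n)))) := by
    refine mem_closure_of_tendsto h1 (Eventually.of_forall fun n => ?_)
    refine ⟨uu h (x n), subset_convexHull ℝ _ ⟨n, rfl⟩, ?_⟩
    exact LinearEquiv.apply_symm_apply _ _
  rw [← (convex_convexHull ℝ _).toWeakSpace_closure ℝ] at h2
  obtain ⟨z, hz1, hz2⟩ := h2
  have h3 : uu h y = z := by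
    unfold uu
    rw [← hz2, LinearEquiv.symm_apply_apply]
  rw [h3]
  exact hz1

end Pool.Agent.W_MP_3ca6e9_h18
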